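import Mathlib
import Pool.Agent.H66.BP.Main

/-!
# MP_d8fe2e_gt: planar convex bodies and the difference of two random boundary points

Let `K` and `H` be convex bodies in the plane. If the difference of two independent random points,
uniformly distributed on the boundary, has the same law for `K` and for `H`, then `H` is a
translate of `K` or of `-K`.
-/

open MeasureTheory

namespace Pool.Agent.Results.MP_d8fe2e_gt.BoundaryDifference

/-- The uniform distribution on the boundary of `K`: the one-dimensional Hausdorff measure (arc
length) restricted to the boundary and divided by its total mass, the perimeter. -/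
noncomputable def boundaryLaw (K : Set (EuclideanSpace ℝ (Fin 2))) :
    Measure (EuclideanSpace ℝ (Fin 2)) :=
  (Measure.hausdorffMeasure 1 (frontier K))⁻¹ •
    (Measure.hausdorffMeasure 1).restrict (frontier K)

/-- The law of `Y₁ - Y₂`, where `Y₁` and `Y₂` are independent and both uniformly distributed on the
boundary of `K`. -/
noncomputable def differenceLaw (K : Set (EuclideanSpace ℝ (Fin 2))) :
    Measure (EuclideanSpace ℝ (Fin 2)) :=
  ((boundaryLaw K).prod (boundaryLaw K)).map (fun p => p.1 - p.2)

/-- **The law of the difference of two random boundary points determines a planar convex body up to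
translations and reflections.** -/
theorem result (K H : Set (EuclideanSpace ℝ (Fin 2)))
    (hK : Convex ℝ K) (hK' : IsCompact K) (hK'' : (interior K).Nonempty)
    (hH : Convex ℝ H) (hH' : IsCompact H) (hH'' : (interior H).Nonempty)
    (h : differenceLaw K = differenceLaw H) :
    ∃ t : EuclideanSpace ℝ (Fin 2),
      H = (fun x => x + t) '' K ∨ H = (fun x => -x + t) '' K := by
  have e : ∀ L : Set (EuclideanSpace ℝ (Fin 2)),
      Pool.Agent.H66.BP.diffLaw L = differenceLaw L := by
    intro L
    have : Pool.Agent.H66.BP.unif L = boundaryLaw L := by
      unfold Pool.Agent.H66.BP.unif boundaryLaw Pool.Agent.H66.BP.bdm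
      rw [Measure.restrict_apply_univ]
    unfold Pool.Agent.H66.BP.diffLaw differenceLaw
    rw [this]
  exact Pool.Agent.H66.BP.main K H ⟨hK, hK', hK''⟩ ⟨hH, hH', hH''⟩ (by rw [e, e, h])

end Pool.Agent.Results.MP_d8fe2e_gt.BoundaryDifference
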